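import Pool.Agent.W423.NT.Defs
import Pool.Agent.W462.SG.G2
import Pool.Agent.W423.MG.Alg3

set_option autoImplicit false

/-! Project NT of helper423, part V2E: the numerical relation from the extended functional
equation. -/

namespace Pool.Agent.W947.NT

open MvPolynomial
open Pool.Agent.W425.ND (tr)
open Pool.Agent.H628R4.TZ (el dd eval_el eval_dd)
open Pool.Agent.W525.SM (Sh Ex Ex_apply fq ff eval_fc eval_fc_zero mem_anti)
open Pool.Agent.W425.SM (dm)
open Pool.Agent.W462.SG (ym ym_apply term_mono')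
open Pool.Agent.W423.MG (gs sum_gs prod_pow_groups sgm eval_sgm gs_cast eval_aev)
open Pool.Agent.W423.NX (Kd0 Kd1)
open Pool.Agent.W423.NT

variable {d r N P : ℕ}

lemma prod_X_ym (u : Fin r → ℕ) :
    (∏ j, X j ^ u j : MvPolynomial (Fin r) ℂ) = monomial (ym u) 1 := by
  rw [monomial_eq, Finsupp.prod_fintype _ _ (by simp)]
  simp [ym]

/-- the coefficients of the expansion -/
noncomputable def ml {n : ℕ} (s : Fin (P+1) → ℕ) (γ : Fin n → ℕ) : ℂ :=
  (∏ k, ((s k).factorial : ℂ)) * (∏ j, ((γ j).factorial : ℂ))⁻¹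

lemma ml_eq (g : Fin r → Fin (P+1)) (s : Fin (P+1) → ℕ) (γ : Fin r → ℕ)
    (h : gs g γ = s) :
    (Nat.multinomial Finset.univ γ : ℂ) = (Nat.multinomial Finset.univ s : ℂ) * ml s γ := by
  have h1 := Nat.multinomial_spec Finset.univ γ
  have h2 := Nat.multinomial_spec Finset.univ s
  have h3 : ∑ k, s k = ∑ j, γ j := by rw [← h, sum_gs]
  rw [h3] at h2
  have h4 : (∏ j, ((γ j).factorial : ℂ)) * (Nat.multinomial Finset.univ γ : ℂ) =
      (∏ k, ((s k).factorial : ℂ)) * (Nat.multinomial Finset.univ s : ℂ) := by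
    exact_mod_cast h1.trans h2.symm
  have h5 : (∏ j, ((γ j).factorial : ℂ)) ≠ 0 :=
    Finset.prod_ne_zero_iff.2 fun j _ => by exact_mod_cast Nat.factorial_ne_zero _
  unfold ml
  rw [← mul_assoc, mul_comm (Nat.multinomial Finset.univ s : ℂ), ← h4]
  field_simp

/-- the expansion -/
lemma poly_prod (g : Fin r → Fin (P+1)) (v : Fin r → Fin N → ℕ) (s : Fin (P+1) → ℕ) :
    ∏ k, polyR g v (X : Fin r → MvPolynomial (Fin r) ℂ) k ^ s k =
      ∑ γ ∈ Finset.piAntidiag Finset.univ (∑ k, s k), if gs g γ = s then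
        monomial (Ex v γ) (monomial (ym γ) (ml s γ)) else 0 := by
  classical
  have hC : ∀ x : MvPolynomial (Fin N) (MvPolynomial (Fin r) ℂ),
      ((Nat.multinomial Finset.univ s : ℕ) : MvPolynomial (Fin N) (MvPolynomial (Fin r) ℂ)) * x =
      C (C (Nat.multinomial Finset.univ s : ℂ)) * x := by
    intro x
    congr 1
  have hinj : ∀ x y : MvPolynomial (Fin N) (MvPolynomial (Fin r) ℂ),
      C (C (Nat.multinomial Finset.univ s : ℂ)) * x = C (C (Nat.multinomial Finset.univ s : ℂ)) * y →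
      x = y := by
    intro x y h
    refine mul_left_cancel₀ ?_ h
    rw [Ne, C_eq_zero, C_eq_zero]
    exact_mod_cast (Nat.multinomial_pos Finset.univ s).ne'
  apply hinj
  rw [← hC]
  unfold polyR
  rw [prod_pow_groups g (fun j => (C ((X : Fin r → MvPolynomial (Fin r) ℂ) j) *
    ∏ i, X i ^ v j i : MvPolynomial (Fin N) (MvPolynomial (Fin r) ℂ))) s, Finset.mul_sum]
  refine Finset.sum_congr rfl fun γ _ => ?_
  by_cases h : gs g γ = s
  swap
  · rw [if_neg h, if_neg h, mul_zero]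
  rw [if_pos h, if_pos h, term_mono', prod_X_ym,
    ← map_natCast (C (σ := Fin N) (R := MvPolynomial (Fin r) ℂ)),
    C_mul_monomial, ← map_natCast (C (σ := Fin r) (R := ℂ)), C_mul_monomial, mul_one,
    C_mul_monomial, C_mul_monomial, ml_eq g s γ h]

open Classical in
lemma coeff_poly_prod (g : Fin r → Fin (P+1)) (v : Fin r → Fin N → ℕ) (s : Fin (P+1) → ℕ)
    (γ : Fin r →₀ ℕ) (e : Fin N →₀ ℕ) :
    coeff γ (coeff e (∏ k, polyR g v (X : Fin r → MvPolynomial (Fin r) ℂ) k ^ s k)) =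
      if Ex v γ = e ∧ gs g γ = s then ml s γ else 0 := by
  rw [poly_prod, coeff_sum, coeff_sum]
  by_cases hk : gs g γ = s
  · have hk' : (⇑γ) ∈ Finset.piAntidiag (Finset.univ : Finset (Fin r)) (∑ k, s k) := by
      rw [mem_anti, ← hk, sum_gs]
    rw [Finset.sum_eq_single_of_mem (⇑γ) hk']
    · rw [if_pos hk, coeff_monomial]
      by_cases he : Ex v γ = e
      · rw [if_pos he, if_pos ⟨he, hk⟩, coeff_monomial, if_pos]
        ext j
        rw [ym_apply]
      · rw [if_neg he, if_neg (fun h => he h.1), coeff_zero]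
    · intro γ' _ hne
      by_cases hk2 : gs g γ' = s
      swap
      · rw [if_neg hk2, coeff_zero, coeff_zero]
      rw [if_pos hk2, coeff_monomial]
      split_ifs
      · rw [coeff_monomial, if_neg]
        intro h
        apply hne
        rw [← h]
        funext j
        rw [ym_apply]
      · rw [coeff_zero]
  · rw [if_neg (fun h => hk h.2)]
    refine Finset.sum_eq_zero fun γ' hγ' => ?_
    by_cases hk2 : gs g γ' = s
    swap
    · rw [if_neg hk2, coeff_zero, coeff_zero]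
    rw [if_pos hk2, coeff_monomial]
    split_ifs
    · rw [coeff_monomial, if_neg]
      intro h
      apply hk
      rw [← h, ← hk2]
      congr 1
    · rw [coeff_zero]

/-- the coefficient of `y ^ ν` -/
noncomputable def Py {α : Type} (ν : Fin r →₀ ℕ)
    (Q : MvPolynomial α (MvPolynomial (Fin r) ℂ)) : MvPolynomial α ℂ :=
  ∑ x ∈ Q.support, monomial x (coeff ν (coeff x Q))

open Classical in
/-- the exponents of `y` which occur -/
noncomputable def Sy {α : Type} (Q : MvPolynomial α (MvPolynomial (Fin r) ℂ)) :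
    Finset (Fin r →₀ ℕ) :=
  Q.support.biUnion fun x => (coeff x Q).support

lemma Py_zero {α : Type} (ν : Fin r →₀ ℕ) (Q : MvPolynomial α (MvPolynomial (Fin r) ℂ))
    (h : ν ∉ Sy Q) : Py ν Q = 0 := by
  classical
  unfold Py
  refine Finset.sum_eq_zero fun x hx => ?_
  have : coeff ν (coeff x Q) = 0 := by
    by_contra hne
    apply h
    unfold Sy
    rw [Finset.mem_biUnion]
    exact ⟨x, hx, mem_support_iff.2 hne⟩
  rw [this, map_zero]

lemma evQ_C (n : Fin d → ℕ) (e : Fin N →₀ ℕ) (o : Fin d ⊕ Fin N) :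
    (evQ n e o : MvPolynomial (Fin r) ℂ) = C (evQ n e o) := by
  cases o with
  | inl t => exact (map_natCast C (n t)).symm
  | inr i => exact (map_natCast C (e i)).symm

lemma eval_Py (ν : Fin r →₀ ℕ) (Q : MvPolynomial (Fin d ⊕ Fin N) (MvPolynomial (Fin r) ℂ))
    (n : Fin d → ℕ) (e : Fin N →₀ ℕ) :
    coeff ν (eval (evQ n e) Q) = eval (evQ n e) (Py ν Q) := by
  unfold Py
  rw [eval_eq', coeff_sum, map_sum]
  refine Finset.sum_congr rfl fun x _ => ?_
  rw [eval_monomial, Finsupp.prod_fintype _ _ (by simp)]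
  have : ∏ i, (evQ n e i : MvPolynomial (Fin r) ℂ) ^ x i = C (∏ i, (evQ n e i : ℂ) ^ x i) := by
    rw [map_prod]
    exact Finset.prod_congr rfl fun i _ => by rw [evQ_C, map_pow]
  rw [this, mul_comm, coeff_C_mul, mul_comm]

lemma coeff_mul_of (S : Finset (Fin r →₀ ℕ)) (E g : MvPolynomial (Fin r) ℂ)
    (hE : ∀ ν, ν ∉ S → coeff ν E = 0) (μ : Fin r →₀ ℕ) :
    open scoped Classical in
    coeff μ (E * g) = ∑ ν ∈ S, if ν ≤ μ then coeff ν E * coeff (μ - ν) g else 0 := by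
  classical
  have h1 : E = ∑ ν ∈ S, monomial ν (coeff ν E) := by
    conv_lhs => rw [E.as_sum]
    refine Finset.sum_subset (fun ν hν => ?_) (fun ν _ hν => ?_)
    · by_contra h
      exact (mem_support_iff.1 hν) (hE ν h)
    · rw [notMem_support_iff.1 hν, map_zero]
  conv_lhs => rw [h1]
  rw [Finset.sum_mul, coeff_sum]
  refine Finset.sum_congr rfl fun ν _ => ?_
  rw [coeff_monomial_mul']

/-- `μ0 - ν` -/
def cv (μ0 ν : Fin r →₀ ℕ) (j : Fin r) : ℤ := (μ0 j : ℤ) - ν j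

/-- the indices with positive shift -/
def Bd (δ : Fin N → ℤ) : Finset (Fin N) := Finset.univ.filter fun i => 0 < δ i

/-- the condition on `ν` -/
def Cond (g : Fin r → Fin (P+1)) (v : Fin r → Fin N → ℕ) (a : Fin N →₀ ℕ)
    (m τ : Fin (P+1) → ℕ) (δ : Fin N → ℤ) (μ0 ν : Fin r →₀ ℕ) : Prop :=
  (∀ k, gs g (cv μ0 ν) k = (τ k : ℤ) - m k) ∧ ∀ i, ∑ j, cv μ0 ν j * (v j i : ℤ) = δ i - a i

/-- the remaining factor -/
noncomputable def Kr (g : Fin r → Fin (P+1)) (v : Fin r → Fin N → ℕ)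
    (nu : Fin d → MvPolynomial (Fin (P+1)) ℂ)
    (Q : MvPolynomial (Fin d ⊕ Fin N) (MvPolynomial (Fin r) ℂ)) (τ : Fin (P+1) → ℕ)
    (δ : Fin N → ℤ) (ν : Fin r →₀ ℕ) : MvPolynomial (Fin r) ℂ :=
  (∏ k, ∏ i ∈ Finset.range (τ k), (sgm g k + C (i : ℂ) + 1)) *
    (∏ i ∈ Bd δ, dd v i (δ i).toNat) *
    aeval (Sum.elim (fun t => aeval (sgm g) (nu t)) fun i => el v i - 1 + C ((δ i : ℤ) : ℂ))
      (Py ν Q)

/-- the term of `ν` -/
noncomputable def Tm (g : Fin r → Fin (P+1)) (v : Fin r → Fin N → ℕ)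
    (nu : Fin d → MvPolynomial (Fin (P+1)) ℂ)
    (Q : MvPolynomial (Fin d ⊕ Fin N) (MvPolynomial (Fin r) ℂ)) (τ : Fin (P+1) → ℕ)
    (δ : Fin N → ℤ) (M : ℕ) (μ0 ν : Fin r →₀ ℕ) : MvPolynomial (Fin r) ℂ :=
  (∏ i ∈ Bd δ, el v i) * ((∏ j, ff M j (cv μ0 ν j)) * ((∏ j, fq M j (cv μ0 ν j)) *
    Kr g v nu Q τ δ ν))

lemma eval_Tm (g : Fin r → Fin (P+1)) (v : Fin r → Fin N → ℕ)
    (nu : Fin d → MvPolynomial (Fin (P+1)) ℂ)
    (Q : MvPolynomial (Fin d ⊕ Fin N) (MvPolynomial (Fin r) ℂ)) (τ : Fin (P+1) → ℕ)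
    (δ : Fin N → ℤ) (M : ℕ) (μ0 ν : Fin r →₀ ℕ) (x : Fin r → ℂ) :
    eval x (Tm g v nu Q τ δ M μ0 ν) =
      (∏ j, eval x (ff M j (cv μ0 ν j) * fq M j (cv μ0 ν j))) *
        ((∏ i ∈ Bd δ, eval x (el v i)) * eval x (Kr g v nu Q τ δ ν)) := by
  unfold Tm
  simp only [map_mul, map_prod, Finset.prod_mul_distrib]
  ring

lemma tr_apply (δ : Fin N → ℤ) (e : Fin N →₀ ℕ) (i : Fin N) :
    tr δ e i = ((e i : ℤ) + δ i).toNat := by simp [tr]

lemma fact_add (s m : ℕ) : (((s + m).factorial : ℕ) : ℂ) =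
    (s.factorial : ℂ) * (∏ i ∈ Finset.range m, ((s : ℂ) + i + 1)) := by
  induction m with
  | zero => simp
  | succ m ih =>
    rw [Finset.prod_range_succ, ← add_assoc, Nat.factorial_succ]
    push_cast
    rw [ih]
    ring

/-- the value of the remaining factors -/
lemma eval_Kr (g : Fin r → Fin (P+1)) (v : Fin r → Fin N → ℕ)
    (nu : Fin d → MvPolynomial (Fin (P+1)) ℂ)
    (Q : MvPolynomial (Fin d ⊕ Fin N) (MvPolynomial (Fin r) ℂ)) (τ : Fin (P+1) → ℕ)
    (δ : Fin N → ℤ) (ν : Fin r →₀ ℕ) (u : Fin r → ℕ) (n : Fin d → ℕ)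
    (hn : ∀ t, eval (fun k => ((gs g u k : ℕ) : ℂ)) (nu t) = (n t : ℂ))
    (h : ∀ i, 0 ≤ (Ex v u i : ℤ) + δ i) :
    (∏ k, (((gs g u k).factorial : ℕ) : ℂ)) *
      ((∏ i ∈ Bd δ, eval (fun j => (u j : ℂ)) (el v i)) *
      eval (fun j => (u j : ℂ)) (Kr g v nu Q τ δ ν)) =
    (∏ k, (((gs g u k + τ k).factorial : ℕ) : ℂ)) *
      ((∏ i, ((Ex v u i : ℤ) + δ i).toNat.descFactorial (δ i).toNat : ℕ) : ℂ) *
      eval (evQ n (tr δ (Ex v u))) (Py ν Q) := by
  have h1 : (∏ k, (((gs g u k).factorial : ℕ) : ℂ)) * eval (fun j => (u j : ℂ))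
      (∏ k, ∏ i ∈ Finset.range (τ k), (sgm g k + C (i : ℂ) + 1)) =
      ∏ k, (((gs g u k + τ k).factorial : ℕ) : ℂ) := by
    rw [map_prod, ← Finset.prod_mul_distrib]
    refine Finset.prod_congr rfl fun k _ => ?_
    rw [fact_add, map_prod]
    congr 1
    refine Finset.prod_congr rfl fun i _ => ?_
    rw [map_add, map_add, eval_sgm, eval_C, map_one, gs_cast]
  have h2 : (∏ i ∈ Bd δ, eval (fun j => (u j : ℂ)) (el v i)) *
      eval (fun j => (u j : ℂ)) (∏ i ∈ Bd δ, dd v i (δ i).toNat) =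
      ((∏ i, ((Ex v u i : ℤ) + δ i).toNat.descFactorial (δ i).toNat : ℕ) : ℂ) := by
    rw [map_prod, ← Finset.prod_mul_distrib]
    push_cast
    have h3 : ∏ i, (((Ex v u i : ℤ) + δ i).toNat.descFactorial (δ i).toNat : ℂ) =
        ∏ i ∈ Bd δ, (((Ex v u i : ℤ) + δ i).toNat.descFactorial (δ i).toNat : ℂ) := by
      symm
      refine Finset.prod_subset (Finset.subset_univ _) fun i _ hi => ?_
      have h4 : ¬ 0 < δ i := fun h => hi (Finset.mem_filter.2 ⟨Finset.mem_univ _, h⟩)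
      have h5 : (δ i).toNat = 0 := by omega
      rw [h5, Nat.descFactorial_zero, Nat.cast_one]
    rw [h3]
    refine Finset.prod_congr rfl fun i hi => ?_
    have h4 : 0 < δ i := (Finset.mem_filter.1 hi).2
    rw [eval_dd v i (δ i).toNat (by omega) u]
    have h5 : ((Ex v u i : ℤ) + δ i).toNat = ∑ j, v j i * u j + (δ i).toNat := by
      have h6 : Ex v u i = ∑ j, v j i * u j := by
        rw [Ex_apply]
        exact Finset.sum_congr rfl fun j _ => mul_comm _ _
      rw [h6]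
      omega
    rw [h5]
  have h6 : eval (fun j => (u j : ℂ)) (aeval (Sum.elim
      (fun t => aeval (sgm g) (nu t)) fun i => el v i - 1 + C ((δ i : ℤ) : ℂ)) (Py ν Q)) =
      eval (evQ n (tr δ (Ex v u))) (Py ν Q) := by
    rw [eval_aev]
    congr 2
    funext o
    cases o with
    | inl t =>
      simp only [Sum.elim_inl, evQ]
      rw [eval_aev, ← hn t]
      congr 2
      funext k
      rw [eval_sgm, gs_cast]
    | inr i =>
      simp only [Sum.elim_inr, map_add, map_sub, map_one, eval_C, eval_el, evQ]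
      rw [tr_apply]
      have h7 : Ex v u i = ∑ j, v j i * u j := by
        rw [Ex_apply]
        exact Finset.sum_congr rfl fun j _ => mul_comm _ _
      have h8 : (((((Ex v u i : ℤ) + δ i).toNat : ℕ) : ℤ) : ℂ) =
          (((Ex v u i : ℤ) + δ i : ℤ) : ℂ) := by rw [Int.toNat_of_nonneg (h i)]
      rw [Int.cast_natCast] at h8
      rw [h8, h7]
      push_cast
      ring
  unfold Kr
  rw [map_mul, map_mul, h6, ← h1, ← h2]
  ring

lemma gs_sub_cv (g : Fin r → Fin (P+1)) (u : Fin r → ℕ) (γ : Fin r → ℕ) (c : Fin r → ℤ)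
    (h : ∀ j, (γ j : ℤ) = (u j : ℤ) + c j) (k : Fin (P+1)) :
    ((gs g γ k : ℕ) : ℤ) = (gs g u k : ℕ) + gs g c k := by
  unfold gs
  push_cast
  rw [← Finset.sum_add_distrib]
  refine Finset.sum_congr rfl fun j _ => ?_
  split_ifs
  · exact h j
  · simp

/-- the main term computation -/
lemma term (g : Fin r → Fin (P+1)) (v : Fin r → Fin N → ℕ)
    (nu : Fin d → MvPolynomial (Fin (P+1)) ℂ)
    (Q : MvPolynomial (Fin d ⊕ Fin N) (MvPolynomial (Fin r) ℂ)) (a : Fin N →₀ ℕ)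
    (m τ : Fin (P+1) → ℕ) (δ : Fin N → ℤ) (μ0 : Fin r →₀ ℕ) (M : ℕ) (hM : ∀ j, μ0 j ≤ M)
    (u : Fin r → ℕ) (n : Fin d → ℕ)
    (hn : ∀ t, eval (fun k => ((gs g u k : ℕ) : ℂ)) (nu t) = (n t : ℂ))
    (w : FnQ d N (MvPolynomial (Fin r) ℂ))
    (hw : ∀ e, w n e = eval (evQ n e) Q * coeff e (monomial a 1 *
      ((∏ k, (gs g u k + τ k).descFactorial (m k) : ℕ) :
        MvPolynomial (Fin N) (MvPolynomial (Fin r) ℂ)) *
      ∏ k, polyR g v (X : Fin r → MvPolynomial (Fin r) ℂ) k ^ (gs g u k + τ k - m k))) :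
    open scoped Classical in
    (∏ j, ((u j + M).factorial : ℂ)) * coeff (ym u + μ0) (lowQ δ w n (Ex v u)) =
    (∏ k, (((gs g u k).factorial : ℕ) : ℂ)) * ∑ ν ∈ (Sy Q).filter (Cond g v a m τ δ μ0),
      eval (fun j => (u j : ℂ)) (Tm g v nu Q τ δ M μ0 ν) := by
  classical
  set s := gs g u with hs
  set e := Ex v u with he
  -- the coefficients of the bracket
  have hg : ∀ (e' : Fin N →₀ ℕ) (γ : Fin r →₀ ℕ), coeff γ (coeff e' (monomial a 1 *
      ((∏ k, (s k + τ k).descFactorial (m k) : ℕ) :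
        MvPolynomial (Fin N) (MvPolynomial (Fin r) ℂ)) *
      ∏ k, polyR g v (X : Fin r → MvPolynomial (Fin r) ℂ) k ^ (s k + τ k - m k))) =
      if a ≤ e' ∧ Ex v γ = e' - a ∧ gs g γ = (fun k => s k + τ k - m k) then
        ((∏ k, (s k + τ k).descFactorial (m k) : ℕ) : ℂ) *
          ml (fun k => s k + τ k - m k) γ else 0 := by
    intro e' γ
    rw [mul_assoc, coeff_monomial_mul', one_mul]
    by_cases ha : a ≤ e'
    · rw [if_pos ha, ← map_natCast (C (σ := Fin N) (R := MvPolynomial (Fin r) ℂ)), coeff_C_mul,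
        ← map_natCast (C (σ := Fin r) (R := ℂ)), coeff_C_mul, coeff_poly_prod]
      by_cases h2 : Ex v γ = e' - a ∧ gs g γ = (fun k => s k + τ k - m k)
      · rw [if_pos h2, if_pos ⟨ha, h2⟩]
      · rw [if_neg h2, if_neg (fun h => h2 h.2), mul_zero]
    · rw [if_neg ha, if_neg (fun h => ha h.1), coeff_zero]
  -- the relation between `γ` and `c`
  have hrel : ∀ ν : Fin r →₀ ℕ, ν ≤ ym u + μ0 → ∀ j, (((ym u + μ0 - ν) j : ℕ) : ℤ) =
      (u j : ℤ) + cv μ0 ν j := by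
    intro ν hν j
    have := hν j
    rw [Finsupp.add_apply, ym_apply] at this
    rw [Finsupp.tsub_apply, Finsupp.add_apply, ym_apply]
    unfold cv
    omega
  have hle : ∀ ν : Fin r →₀ ℕ, ν ≤ ym u + μ0 ↔ ∀ j, 0 ≤ (u j : ℤ) + cv μ0 ν j := by
    intro ν
    constructor
    · intro h j
      rw [← hrel ν h j]
      exact Int.natCast_nonneg _
    · intro h j
      have := h j
      rw [Finsupp.add_apply, ym_apply]
      unfold cv at this
      omega
  have hExγ : ∀ ν : Fin r →₀ ℕ, ν ≤ ym u + μ0 → ∀ i,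
      ((Ex v (⇑(ym u + μ0 - ν : Fin r →₀ ℕ)) i : ℕ) : ℤ) =
      (e i : ℤ) + ∑ j, cv μ0 ν j * (v j i : ℤ) := by
    intro ν hν i
    rw [he, Ex_apply, Ex_apply, Nat.cast_sum, Nat.cast_sum, ← Finset.sum_add_distrib]
    refine Finset.sum_congr rfl fun j _ => ?_
    rw [Nat.cast_mul, Nat.cast_mul, hrel ν hν j]
    ring
  have hSγ : ∀ ν : Fin r →₀ ℕ, ν ≤ ym u + μ0 → ∀ k,
      ((gs g (⇑(ym u + μ0 - ν : Fin r →₀ ℕ)) k : ℕ) : ℤ) = (s k : ℕ) + gs g (cv μ0 ν) k := by
    intro ν hν k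
    exact gs_sub_cv g u _ _ (hrel ν hν) k
  -- vanishing
  have hzero : ∀ ν : Fin r →₀ ℕ, ¬ ν ≤ ym u + μ0 →
      eval (fun j => (u j : ℂ)) (Tm g v nu Q τ δ M μ0 ν) = 0 := by
    intro ν hν
    rw [hle] at hν
    push Not at hν
    obtain ⟨j, hj⟩ := hν
    rw [eval_Tm, Finset.prod_eq_zero (Finset.mem_univ j) (eval_fc_zero u M j _ hj), zero_mul]
  unfold lowQ
  rw [hw (tr δ e)]
  by_cases h : ∀ i, 0 ≤ (e i : ℤ) + δ i
  swap
  · rw [if_neg h, coeff_zero, mul_zero]
    rw [Finset.sum_eq_zero, mul_zero]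
    intro ν hν
    rw [Finset.mem_filter] at hν
    apply hzero
    intro hν'
    apply h
    intro i
    have h1 := hExγ ν hν' i
    rw [hν.2.2 i] at h1
    omega
  rw [if_pos h, ← map_natCast (C (σ := Fin r) (R := ℂ)), coeff_C_mul,
    coeff_mul_of (Sy Q) _ _ (fun ν hν => by rw [eval_Py, Py_zero ν Q hν, map_zero]),
    Finset.sum_filter, Finset.mul_sum, Finset.mul_sum, Finset.mul_sum]
  refine Finset.sum_congr rfl fun ν _ => ?_
  by_cases hν : ν ≤ ym u + μ0
  swap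
  · rw [if_neg hν, hzero ν hν]
    simp
  rw [if_pos hν, hg, eval_Py]
  by_cases hC : Cond g v a m τ δ μ0 ν
  · rw [if_pos hC]
    have hSg := hSγ ν hν
    have hmn : ∀ k, m k ≤ s k + τ k := by
      intro k
      have h1 := hSg k
      rw [hC.1 k] at h1
      omega
    have hS1 : gs g (⇑(ym u + μ0 - ν : Fin r →₀ ℕ)) = fun k => s k + τ k - m k := by
      funext k
      have h1 := hSg k
      rw [hC.1 k] at h1
      omega
    have hE1 : ∀ i, (Ex v (⇑(ym u + μ0 - ν : Fin r →₀ ℕ)) i + a i : ℕ) = tr δ e i := by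
      intro i
      have h1 := hExγ ν hν i
      rw [hC.2 i] at h1
      rw [tr_apply]
      omega
    have hcond : a ≤ tr δ e ∧ Ex v (⇑(ym u + μ0 - ν : Fin r →₀ ℕ)) = tr δ e - a ∧
        gs g (⇑(ym u + μ0 - ν : Fin r →₀ ℕ)) = (fun k => s k + τ k - m k) := by
      refine ⟨fun i => ?_, ?_, hS1⟩
      · have := hE1 i
        omega
      · ext i
        rw [Finsupp.tsub_apply, ← hE1 i]
        omega
    rw [if_pos hcond]
    have hfac : (∏ j, ((u j + M).factorial : ℂ)) *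
        (((∏ k, (s k + τ k).descFactorial (m k) : ℕ) : ℂ) *
        ml (fun k => s k + τ k - m k) (⇑(ym u + μ0 - ν : Fin r →₀ ℕ))) =
        (∏ k, (((s k + τ k).factorial : ℕ) : ℂ)) *
        ∏ j, eval (fun j => (u j : ℂ)) (ff M j (cv μ0 ν j) * fq M j (cv μ0 ν j)) := by
      have h1 : ∏ j, ((u j + M).factorial : ℂ) =
          (∏ j, ((((ym u + μ0 - ν) j).factorial : ℕ) : ℂ)) *
          ∏ j, eval (fun j => (u j : ℂ)) (ff M j (cv μ0 ν j) * fq M j (cv μ0 ν j)) := by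
        rw [← Finset.prod_mul_distrib]
        refine Finset.prod_congr rfl fun j _ => ?_
        rw [← eval_fc u M j (cv μ0 ν j) (by unfold cv; have := hM j; omega) ((hle ν).1 hν j),
          ← hrel ν hν j, Int.toNat_natCast]
      have h5 : (∏ j, ((((ym u + μ0 - ν) j).factorial : ℕ) : ℂ)) ≠ 0 :=
        Finset.prod_ne_zero_iff.2 fun j _ => by exact_mod_cast Nat.factorial_ne_zero _
      have h3' : (∏ k, (((s k + τ k - m k).factorial : ℕ) : ℂ)) *
          ((∏ k, (s k + τ k).descFactorial (m k) : ℕ) : ℂ) =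
          ∏ k, (((s k + τ k).factorial : ℕ) : ℂ) := by
        push_cast
        rw [← Finset.prod_mul_distrib]
        refine Finset.prod_congr rfl fun k _ => ?_
        exact_mod_cast Nat.factorial_mul_descFactorial (hmn k)
      rw [h1, ← h3']
      unfold ml
      field_simp
    have hK := eval_Kr g v nu Q τ δ ν u n hn h
    rw [eval_Tm]
    calc _ = ((∏ j, ((u j + M).factorial : ℂ)) *
        (((∏ k, (s k + τ k).descFactorial (m k) : ℕ) : ℂ) *
        ml (fun k => s k + τ k - m k) (⇑(ym u + μ0 - ν : Fin r →₀ ℕ)))) *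
        (((∏ i, ((e i : ℤ) + δ i).toNat.descFactorial (δ i).toNat : ℕ) : ℂ) *
        eval (evQ n (tr δ e)) (Py ν Q)) := by push_cast; ring
      _ = (∏ j, eval (fun j => (u j : ℂ)) (ff M j (cv μ0 ν j) * fq M j (cv μ0 ν j))) *
        ((∏ k, (((s k + τ k).factorial : ℕ) : ℂ)) *
        ((∏ i, ((e i : ℤ) + δ i).toNat.descFactorial (δ i).toNat : ℕ) : ℂ) *
        eval (evQ n (tr δ e)) (Py ν Q)) := by rw [hfac]; ring
      _ = _ := by rw [← hK]; ring
  · rw [if_neg hC, mul_zero]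
    split_ifs with hcond
    swap
    · simp
    obtain ⟨h1, h2, h3⟩ := hcond
    by_cases hmn : ∀ k, m k ≤ s k + τ k
    · exfalso
      apply hC
      refine ⟨fun k => ?_, fun i => ?_⟩
      · have h4 := hSγ ν hν k
        have h5 := hmn k
        rw [h3] at h4
        dsimp only at h4
        omega
      · have h4 := hExγ ν hν i
        have h5 := DFunLike.congr_fun h2 i
        rw [Finsupp.tsub_apply, tr_apply] at h5
        have h6 := h1 i
        rw [tr_apply] at h6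
        have h7 := h i
        omega
    · push Not at hmn
      obtain ⟨k, hk⟩ := hmn
      have h0 : ∏ k, (s k + τ k).descFactorial (m k) = 0 :=
        Finset.prod_eq_zero (Finset.mem_univ k) (Nat.descFactorial_eq_zero_iff_lt.2 hk)
      rw [h0]
      simp

/-! ### the ideal -/

/-- the factor of `c` -/
noncomputable def gf (M : ℕ) (c : Fin r → ℤ) : MvPolynomial (Fin r) ℂ :=
  ∏ j, if c j < 0 then X j * dm M j else 1

/-- the generators of weight one -/
def S1 (g : Fin r → Fin (P+1)) (v : Fin r → Fin N → ℕ) (m : Fin (P+1) → ℕ) (M : ℕ) :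
    Set (MvPolynomial (Fin r) ℂ) :=
  {p | ∃ (c : Fin r → ℤ) (B : Finset (Fin N)), Kd1 g v m c B ∧
    p = (∏ i ∈ B, el v i) * gf M c}

/-- the generators of weight zero -/
def S0 (g : Fin r → Fin (P+1)) (v : Fin r → Fin N → ℕ) (θ : Fin r → ℝ) (loc : Prop) (M : ℕ) :
    Set (MvPolynomial (Fin r) ℂ) :=
  {p | ∃ c : Fin r → ℤ, Kd0 g v θ loc c ∧ p = gf M c}

/-- the ideal -/
noncomputable def II (g : Fin r → Fin (P+1)) (v : Fin r → Fin N → ℕ) (m : Fin (P+1) → ℕ)
    (θ : Fin r → ℝ) (loc : Prop) (M : ℕ) : Ideal (MvPolynomial (Fin r) ℂ) :=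
  Ideal.span (S1 g v m M) ⊔ Ideal.span (S0 g v θ loc M)

lemma numRel_of_mem (g : Fin r → Fin (P+1)) (v : Fin r → Fin N → ℕ) (m : Fin (P+1) → ℕ)
    (θ : Fin r → ℝ) (loc : Prop) (M : ℕ) (E : Set (Fin (P+1) → ℕ))
    (bs : (Fin (P+1) → ℕ) → ℂ) (p : MvPolynomial (Fin r) ℂ) (h : p ∈ II g v m θ loc M)
    (hp : ∀ u : Fin r → ℕ, gs g u ∈ E →
      bs (gs g u) * eval (fun j => (u j : ℂ)) (∏ j, dm M j) = eval (fun j => (u j : ℂ)) p) :
    NumRelW loc g v θ m E bs := by
  obtain ⟨x, hx, y, hy, hxy⟩ := Submodule.mem_sup.1 h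
  obtain ⟨n, q, f, hq⟩ := (Submodule.mem_span_set').1 hx
  obtain ⟨n0, q0, f0, hq0⟩ := (Submodule.mem_span_set').1 hy
  choose c B hK hg using fun k => (f k).2
  choose c0 hK0 hg0 using fun k => (f0 k).2
  refine ⟨M, n, n0, c, B, q, c0, q0, hK, hK0, fun u hu => ?_⟩
  rw [hp u hu, ← hxy, ← hq, ← hq0]
  congr 2
  · refine Finset.sum_congr rfl fun k _ => ?_
    rw [hg k, smul_eq_mul]
    unfold gf
    ring
  · refine Finset.sum_congr rfl fun k _ => ?_
    rw [hg0 k, smul_eq_mul]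
    unfold gf
    ring

lemma ff_eq (M : ℕ) (c : Fin r → ℤ) : ∏ j, ff M j (c j) = gf M c := rfl

lemma fq_zero' (M : ℕ) (j : Fin r) : fq M j 0 = dm M j := by
  unfold fq dm
  rw [if_neg (lt_irrefl 0)]
  simp

lemma gs_add_cast (g : Fin r → Fin (P+1)) (c : Fin r → ℤ) (l : Fin r → ℝ) (k : Fin (P+1)) :
    gs g (fun j => (c j : ℝ) + l j) k = ((gs g c k : ℤ) : ℝ) + gs g l k := by
  unfold gs
  push_cast
  rw [← Finset.sum_add_distrib]
  refine Finset.sum_congr rfl fun j _ => ?_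
  split_ifs <;> simp

theorem v2e : TaskV2EQ := by
  classical
  intro d r N P loc M' nu g v A B θ hnu hθ _ _ hA hRel bs hbs
  obtain ⟨L, n1, n0, δ, c, μ, Q, δ0, c0, μ0, Q0, hc, hc0, h0, hrel⟩ := hRel
  obtain ⟨κ0, hκ0, hmax⟩ := Finset.exists_max_image A.support
    (fun κ => ∑ j, (κ j : ℝ) * θ j) (by rwa [support_nonempty])
  refine ⟨L, ?_⟩
  set M : ℕ := ∑ j, κ0 j with hMdef
  have hM : ∀ j, κ0 j ≤ M := fun j =>
    Finset.single_le_sum (f := fun j => κ0 j) (fun _ _ => Nat.zero_le _) (Finset.mem_univ j)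
  set PA : MvPolynomial (Fin d ⊕ Fin N) (MvPolynomial (Fin r) ℂ) := C A with hPA
  set Bσ : MvPolynomial (Fin r) ℂ := aeval (fun t => aeval (sgm g) (nu t)) B with hBσ
  -- the polynomials
  set F0 : MvPolynomial (Fin r) ℂ :=
    ∑ ν ∈ (Sy PA).filter (Cond g v 0 0 0 (0 : Fin N → ℤ) κ0), Tm g v nu PA 0 0 M κ0 ν with hF0
  set F1 : MvPolynomial (Fin r) ℂ :=
    ∑ k, ∑ ν ∈ (Sy (Q k)).filter (Cond g v (c k) (μ k) (rowM M') (δ k) κ0),
      Tm g v nu (Q k) (rowM M') (δ k) M κ0 ν with hF1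
  set F2 : MvPolynomial (Fin r) ℂ :=
    ∑ k, ∑ ν ∈ (Sy (Q0 k)).filter (Cond g v (c0 k) (μ0 k) 0 (δ0 k) κ0),
      Tm g v nu (Q0 k) 0 (δ0 k) M κ0 ν with hF2
  have hBe : ∀ (u : Fin r → ℕ) (n : Fin d → ℕ), gs g u = SM M' n →
      eval (fun j => (u j : ℂ)) Bσ = eval (fun t => (n t : ℂ)) B ∧
      ∀ t, eval (fun k => ((gs g u k : ℕ) : ℂ)) (nu t) = (n t : ℂ) := by
    intro u n hun
    have h1 : ∀ t, eval (fun k => ((gs g u k : ℕ) : ℂ)) (nu t) = (n t : ℂ) := by
      intro t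
      rw [← hnu n t, hun]
    refine ⟨?_, h1⟩
    rw [hBσ, eval_aev]
    congr 2
    funext t
    rw [eval_aev, ← h1 t]
    congr 2
    funext k
    rw [eval_sgm, gs_cast]
  have hid : ∀ (u : Fin r → ℕ) (n : Fin d → ℕ), (∀ t, L ≤ n t) → gs g u = SM M' n →
      eval (fun t => (n t : ℂ)) B * eval (fun j => (u j : ℂ)) F0 =
        eval (fun j => (u j : ℂ)) F1 + eval (fun j => (u j : ℂ)) F2 := by
    intro u n hL hun
    obtain ⟨-, hn⟩ := hBe u n hun
    have hn0 : (∏ k, (((gs g u k).factorial : ℕ) : ℂ)) ≠ 0 :=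
      Finset.prod_ne_zero_iff.2 fun k _ => by exact_mod_cast Nat.factorial_ne_zero _
    have hs1 : ∀ k, SM M' (fun t => n t + 1) k = gs g u k + rowM M' k := by
      intro k
      rw [hun]
      unfold SM rowM
      rw [← Finset.sum_add_distrib]
      exact Finset.sum_congr rfl fun t _ => by ring
    have hs0 : ∀ k, SM M' n k = gs g u k + (0 : Fin (P+1) → ℕ) k := by
      intro k
      rw [hun]
      rfl
    have h1 := congrArg (fun p => (∏ j, ((u j + M).factorial : ℂ)) * coeff (ym u + κ0) p)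
      (hrel n hL (Ex v u))
    beta_reduce at h1
    have t1 : ∀ k, (∏ j, ((u j + M).factorial : ℂ)) * coeff (ym u + κ0)
        (lowQ (δ k) (Q k • shQ 1 (brkQ M' (polyR g v (X : Fin r → MvPolynomial (Fin r) ℂ))
          (monomial (c k) 1) (μ k))) n (Ex v u)) =
        (∏ k, (((gs g u k).factorial : ℕ) : ℂ)) *
          ∑ ν ∈ (Sy (Q k)).filter (Cond g v (c k) (μ k) (rowM M') (δ k) κ0),
          eval (fun j => (u j : ℂ)) (Tm g v nu (Q k) (rowM M') (δ k) M κ0 ν) := fun k =>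
      term g v nu (Q k) (c k) (μ k) (rowM M') (δ k) κ0 M hM u n hn _ (fun e => by
        change eval (evQ n e) (Q k) * coeff e (monomial (c k) 1 *
          ((∏ k', (SM M' (fun t => n t + 1) k').descFactorial (μ k k') : ℕ) :
            MvPolynomial (Fin N) (MvPolynomial (Fin r) ℂ)) *
          ∏ k', polyR g v (X : Fin r → MvPolynomial (Fin r) ℂ) k' ^
            (SM M' (fun t => n t + 1) k' - μ k k')) = _
        simp only [hs1])
    have t0 : ∀ k, (∏ j, ((u j + M).factorial : ℂ)) * coeff (ym u + κ0)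
        (lowQ (δ0 k) (Q0 k • brkQ M' (polyR g v (X : Fin r → MvPolynomial (Fin r) ℂ))
          (monomial (c0 k) 1) (μ0 k)) n (Ex v u)) =
        (∏ k, (((gs g u k).factorial : ℕ) : ℂ)) *
          ∑ ν ∈ (Sy (Q0 k)).filter (Cond g v (c0 k) (μ0 k) 0 (δ0 k) κ0),
          eval (fun j => (u j : ℂ)) (Tm g v nu (Q0 k) 0 (δ0 k) M κ0 ν) := fun k =>
      term g v nu (Q0 k) (c0 k) (μ0 k) 0 (δ0 k) κ0 M hM u n hn _ (fun e => by
        change eval (evQ n e) (Q0 k) * coeff e (monomial (c0 k) 1 *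
          ((∏ k', (SM M' n k').descFactorial (μ0 k k') : ℕ) :
            MvPolynomial (Fin N) (MvPolynomial (Fin r) ℂ)) *
          ∏ k', polyR g v (X : Fin r → MvPolynomial (Fin r) ℂ) k' ^
            (SM M' n k' - μ0 k k')) = _
        simp only [hs0])
    rw [coeff_add, coeff_sum, coeff_sum, mul_add, Finset.mul_sum, Finset.mul_sum,
      Finset.sum_congr rfl fun k _ => t1 k, Finset.sum_congr rfl fun k _ => t0 k] at h1
    have h2 := term g v nu PA 0 0 0 (0 : Fin N → ℤ) κ0 M hM u n hn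
      (PA • brkQ M' (polyR g v (X : Fin r → MvPolynomial (Fin r) ℂ)) (monomial 0 1) 0)
      (fun e => by
        change eval (evQ n e) PA * coeff e (monomial 0 1 *
          ((∏ k', (SM M' n k').descFactorial ((0 : Fin (P+1) → ℕ) k') : ℕ) :
            MvPolynomial (Fin N) (MvPolynomial (Fin r) ℂ)) *
          ∏ k', polyR g v (X : Fin r → MvPolynomial (Fin r) ℂ) k' ^
            (SM M' n k' - (0 : Fin (P+1) → ℕ) k')) = _
        simp only [hs0])
    have h3 : lowQ (0 : Fin N → ℤ) (PA • brkQ M' (polyR g v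
        (X : Fin r → MvPolynomial (Fin r) ℂ)) (monomial 0 1) 0) n (Ex v u) =
        A * coeff (Ex v u) (∏ k, polyR g v (X : Fin r → MvPolynomial (Fin r) ℂ) k ^
          SM M' n k) := by
      unfold lowQ
      have e0 : tr (0 : Fin N → ℤ) (Ex v u) = Ex v u := by
        ext i
        rw [tr_apply]
        simp
      rw [if_pos (by intro i; simp), e0]
      have e1 : (PA • brkQ M' (polyR g v (X : Fin r → MvPolynomial (Fin r) ℂ))
        (monomial 0 1) 0) n (Ex v u) = eval (evQ n (Ex v u)) PA *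
          coeff (Ex v u) (monomial 0 1 *
          ((∏ k', (SM M' n k').descFactorial ((0 : Fin (P+1) → ℕ) k') : ℕ) :
            MvPolynomial (Fin N) (MvPolynomial (Fin r) ℂ)) *
          ∏ k', polyR g v (X : Fin r → MvPolynomial (Fin r) ℂ) k' ^
            (SM M' n k' - (0 : Fin (P+1) → ℕ) k')) := rfl
      rw [e1, hPA, eval_C]
      simp
    rw [h3] at h2
    have h4 : (∏ j, ((u j + M).factorial : ℂ)) * coeff (ym u + κ0)
        (algebraMap ℂ (MvPolynomial (Fin r) ℂ) (eval (fun t => (n t : ℂ)) B) * A *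
          coeff (Ex v u) (∏ k, polyR g v (X : Fin r → MvPolynomial (Fin r) ℂ) k ^
          SM M' n k)) =
        eval (fun t => (n t : ℂ)) B * ((∏ j, ((u j + M).factorial : ℂ)) * coeff (ym u + κ0)
        (A * coeff (Ex v u) (∏ k, polyR g v (X : Fin r → MvPolynomial (Fin r) ℂ) k ^
          SM M' n k))) := by
      rw [algebraMap_eq, mul_assoc (C _), coeff_C_mul]
      ring
    rw [h4, h2] at h1
    refine mul_left_cancel₀ hn0 ?_
    rw [hF0, hF1, hF2]
    simp only [map_sum]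
    rw [mul_left_comm, h1, mul_add, Finset.mul_sum, Finset.mul_sum]
  -- membership
  have mT : ∀ (Q : MvPolynomial (Fin d ⊕ Fin N) (MvPolynomial (Fin r) ℂ))
      (τ : Fin (P+1) → ℕ) (δ : Fin N → ℤ) (ν : Fin r →₀ ℕ), Tm g v nu Q τ δ M κ0 ν =
      ((∏ j, fq M j (cv κ0 ν j)) * Kr g v nu Q τ δ ν) *
        ((∏ i ∈ Bd δ, el v i) * gf M (cv κ0 ν)) := by
    intro Q τ δ ν
    unfold Tm
    rw [ff_eq M (cv κ0 ν)]
    ring
  have hsum : ∀ (a : Fin N →₀ ℕ) (mm τ : Fin (P+1) → ℕ) (δ : Fin N → ℤ) (ν : Fin r →₀ ℕ)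
      (l : Fin r → ℝ), Cond g v a mm τ δ κ0 ν → (∀ k, gs g l k = (mm k : ℝ)) →
      (∀ i, ∑ j, l j * (v j i : ℝ) = (a i : ℝ)) →
      (∀ k, gs g (fun j => (cv κ0 ν j : ℝ) + l j) k = (τ k : ℝ)) ∧
      ∀ i, ∑ j, ((cv κ0 ν j : ℝ) + l j) * (v j i : ℝ) = (δ i : ℝ) := by
    intro a mm τ δ ν l hC hl1 hl2
    constructor
    · intro k
      rw [gs_add_cast, hC.1 k, hl1 k]
      push_cast
      ring
    · intro i
      have h2 : ((∑ j, cv κ0 ν j * (v j i : ℤ) : ℤ) : ℝ) = ((δ i - (a i : ℤ) : ℤ) : ℝ) := by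
        rw [hC.2 i]
      push_cast at h2
      simp only [add_mul]
      rw [Finset.sum_add_distrib, hl2 i, h2]
      ring
  have mF1 : F1 ∈ II g v (rowM M') θ loc M := by
    refine Ideal.sum_mem _ fun k _ => Ideal.sum_mem _ fun ν hν => ?_
    rw [mT]
    refine Ideal.mul_mem_left _ _ (Ideal.mem_sup_left (Ideal.subset_span ?_))
    have hC := (Finset.mem_filter.1 hν).2
    obtain ⟨l, hl0, hl1, hl2⟩ := hc k
    obtain ⟨h1, h2⟩ := hsum _ _ _ _ ν l hC hl1 hl2
    refine ⟨cv κ0 ν, Bd (δ k), ⟨l, hl0, h1, fun i hi => ?_⟩, rfl⟩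
    have h3 : ¬ 0 < δ k i := fun h => hi (Finset.mem_filter.2 ⟨Finset.mem_univ _, h⟩)
    rw [h2 i]
    exact_mod_cast not_lt.1 h3
  have mF2 : F2 ∈ II g v (rowM M') θ loc M := by
    refine Ideal.sum_mem _ fun k _ => Ideal.sum_mem _ fun ν hν => ?_
    rw [mT]
    refine Ideal.mul_mem_left _ _ (Ideal.mul_mem_left _ _
      (Ideal.mem_sup_right (Ideal.subset_span ?_)))
    have hC := (Finset.mem_filter.1 hν).2
    obtain ⟨l, hl0, hl1, hl2⟩ := hc0 k
    obtain ⟨h1, h2⟩ := hsum _ _ _ _ ν l hC hl1 hl2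
    obtain ⟨hloc, hle, hne⟩ := h0 k
    refine ⟨cv κ0 ν, Or.inr ⟨hloc, l, hl0, fun k' => ?_, fun i => ?_, ?_⟩, rfl⟩
    · rw [h1 k']
      simp
    · rw [h2 i]
      exact_mod_cast hle i
    · obtain ⟨i, hi⟩ := Function.ne_iff.1 hne
      refine ⟨i, ?_⟩
      rw [h2 i]
      exact_mod_cast lt_of_le_of_ne (hle i) hi
  -- the main term
  set κ : ℂ := coeff κ0 A with hκ
  have hκne : κ ≠ 0 := mem_support_iff.1 hκ0
  have hSy : ∀ ν, ν ∈ Sy PA ↔ ν ∈ A.support := by
    intro ν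
    unfold Sy
    rw [Finset.mem_biUnion]
    constructor
    · rintro ⟨x, hx, hν⟩
      rw [hPA, coeff_C] at hν
      split_ifs at hν with h
      · exact hν
      · simp at hν
    · intro hν
      refine ⟨0, ?_, ?_⟩
      · rw [mem_support_iff, hPA, coeff_C, if_pos rfl]
        exact hA
      · rw [hPA, coeff_C, if_pos rfl]
        exact hν
  have hPy : Py κ0 PA = C κ := by
    unfold Py
    have h1 : PA.support = {0} := by
      ext x
      rw [mem_support_iff, hPA, coeff_C, Finset.mem_singleton]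
      constructor
      · intro h
        by_contra hne
        exact h (if_neg fun h' => hne h'.symm)
      · rintro rfl
        rw [if_pos rfl]
        exact hA
    rw [h1, Finset.sum_singleton, hPA, coeff_C, if_pos rfl]
    rfl
  have hcv0 : cv κ0 κ0 = 0 := by
    funext j
    simp [cv]
  have hmem : κ0 ∈ (Sy PA).filter (Cond g v 0 0 0 (0 : Fin N → ℤ) κ0) := by
    rw [Finset.mem_filter, hSy]
    refine ⟨hκ0, fun k => ?_, fun i => ?_⟩
    · rw [hcv0]; simp [gs]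
    · rw [hcv0]; simp
  have hT0 : Tm g v nu PA 0 0 M κ0 κ0 = C κ * ∏ j, dm M j := by
    unfold Tm Kr
    have hB0 : Bd (0 : Fin N → ℤ) = ∅ := by
      unfold Bd
      rw [Finset.filter_false_of_mem]
      intro i _
      simp
    rw [hB0, hPy]
    simp only [Finset.prod_empty, one_mul, Pi.zero_apply, Finset.range_zero,
      Finset.prod_const_one, mul_one]
    rw [ff_eq M (cv κ0 κ0), hcv0]
    have h1 : gf M (0 : Fin r → ℤ) = 1 := by
      unfold gf
      exact Finset.prod_eq_one fun j _ => if_neg (lt_irrefl 0)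
    rw [h1, one_mul, algHom_C, algebraMap_eq]
    have h2 : ∏ j, fq M j ((0 : Fin r → ℤ) j) = ∏ j, dm M j :=
      Finset.prod_congr rfl fun j _ => fq_zero' M j
    rw [h2]
    ring
  set rest : MvPolynomial (Fin r) ℂ :=
    ∑ ν ∈ ((Sy PA).filter (Cond g v 0 0 0 (0 : Fin N → ℤ) κ0)).erase κ0,
      Tm g v nu PA 0 0 M κ0 ν with hrest
  have mrest : rest ∈ II g v (rowM M') θ loc M := by
    refine Ideal.sum_mem _ fun ν hν => ?_
    rw [mT]
    refine Ideal.mul_mem_left _ _ (Ideal.mul_mem_left _ _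
      (Ideal.mem_sup_right (Ideal.subset_span ?_)))
    obtain ⟨hne, hν'⟩ := Finset.mem_erase.1 hν
    obtain ⟨hνS, hν1, hν2⟩ := Finset.mem_filter.1 hν'
    refine ⟨cv κ0 ν, Or.inl ⟨fun k => by simpa using hν1 k, fun i => ?_, ?_⟩, rfl⟩
    · have := hν2 i
      simpa [Sh] using this
    have h1 := hmax ν ((hSy ν).1 hνS)
    have h2 : ∑ j, (cv κ0 ν j : ℝ) * θ j = ∑ j, (κ0 j : ℝ) * θ j - ∑ j, (ν j : ℝ) * θ j := by
      rw [← Finset.sum_sub_distrib]
      refine Finset.sum_congr rfl fun j _ => ?_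
      unfold cv
      push_cast
      ring
    refine lt_of_le_of_ne (by rw [h2]; linarith) fun h => hne ?_
    have h3 := Fintype.linearIndependent_iff.1 hθ (fun j => ((cv κ0 ν j : ℤ) : ℚ)) (by
      rw [h]
      refine Finset.sum_congr rfl fun j _ => ?_
      rw [Rat.smul_def]
      push_cast
      rfl)
    ext j
    have h4 : cv κ0 ν j = 0 := by exact_mod_cast h3 j
    unfold cv at h4
    omega
  have hF0' : F0 = C κ * ∏ j, dm M j + rest := by
    rw [hF0, ← Finset.add_sum_erase _ _ hmem, hT0]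
  refine numRel_of_mem g v (rowM M') θ loc M _ bs (C κ⁻¹ * (F1 + F2 - Bσ * rest))
    (Ideal.mul_mem_left _ _ (Ideal.sub_mem _ (Ideal.add_mem _ mF1 mF2)
      (Ideal.mul_mem_left _ _ mrest))) ?_
  rintro u ⟨n, hL, hun⟩
  have h1 := hid u n hL hun
  obtain ⟨h2, -⟩ := hBe u n hun
  rw [hun, hbs n, map_mul, eval_C, map_sub, map_add, ← h1, map_mul (eval _) Bσ, h2, hF0', map_add,
    map_mul (eval _) (C κ), eval_C]
  field_simp
  ring

end Pool.Agent.W947.NT
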